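import Pool.Agent.Helper97.P18.Main

/-!
The number `n = 7588` is a counterexample: `k * (k+1)^φ(n-k) + 1` is composite for all `0 < k < n`.
-/

namespace Pool.Agent.Results.MP_18f1ec_nt.Counterexample7588

theorem result : ∃ n : ℕ, n = 7588 ∧ 1 < n ∧ ∀ k : ℕ, 0 < k → k < n →
    ¬ (k * (k + 1) ^ (Nat.totient (n - k)) + 1).Prime :=
  ⟨7588, rfl, by norm_num, fun k h0 hk => Pool.Agent.Helper97.P18.main k h0 hk⟩

end Pool.Agent.Results.MP_18f1ec_nt.Counterexample7588
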